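import Pool.Agent.H384R3.SPk.Chow

set_option autoImplicit false

namespace Pool.Agent.Results.MP_25630e_an.BoundedRank

open Pool.Agent.H384R3.SPk

/-- A square root lower bound for the `L^1` norm for sets of bounded multiplicative rank. -/
theorem result (r : ℕ) (g₀ : ℚ) (g : Fin r → ℚ) (hg₀ : 0 < g₀) (hg : ∀ j, 0 < g j)
    (A : Finset ℤ) (hA0 : A.Nonempty) (hA : ∀ a ∈ A, 0 < a)
    (hAg : ∀ a ∈ A, ∃ e : Fin r → ℤ, (a : ℚ) = g₀ * ∏ j, g j ^ e j) :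
    Real.sqrt A.card / 3 ^ r ≤
      ∫ x in (0:ℝ)..1, ‖∑ a ∈ A, Complex.exp (2 * Real.pi * Complex.I * a * x)‖ := by
  have hJ := Pool.Agent.H271SPk.taskJ 2 r (by norm_num) g₀ g hg₀ hg A hA hAg
  have h3 : (2 * ((2:ℕ):ℝ) - 1) = 3 := by norm_num
  rw [h3] at hJ
  have h := littlewood A hA0 hJ
  simp_rw [F_ind] at h
  exact h

end Pool.Agent.Results.MP_25630e_an.BoundedRank
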